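import Pool.Agent.MP_8be872_ag.H63.LocA
import Pool.Agent.MP_8be872_ag.H63.SpecA

/-! Killing generators one at a time. -/

namespace Pool.Agent.MP_8be872_ag.H28

open Finset H38 H56 H63 MvPolynomial

set_option linter.unusedSectionVars false

theorem exists_perm {α : Type} {L : List α} {g : α} (h : g ∈ L) : ∃ L', L.Perm (g :: L') := by
  obtain ⟨s, t, rfl⟩ := List.append_of_mem h
  exact ⟨s ++ t, List.perm_middle⟩

theorem xor_cancel {a b s : Bool} (h : xor a s = xor b s) : a = b := by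
  revert h
  cases a <;> cases b <;> cases s <;> simp

section Gen

variable {E O : Type} [Fintype E] [Fintype O] [DecidableEq E] [DecidableEq O]

/-- Division by a generator. -/
theorem div_gn {P : (E ⊕ O → ℕ) → Prop} (g : E ⊕ O) {x : Sp E O}
    (hx : x ∈ mono fun μ => P μ ∧ μ g ≠ 0) :
    ∃ y ∈ mono fun μ => P (μ + Pi.single g 1), gn g y = x := by
  refine mono_le_of_bas (C := (mono fun μ => P (μ + Pi.single g 1)).map (gn g)) ?_ hx
  intro S m hP
  have ha : ((ex S m g : ℕ) : ℂ) ≠ 0 := by exact_mod_cast hP.2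
  have h1 : vf (fun g' => (Pi.single g 1 : E ⊕ O → ℂ) g' • gn g') (bas S m) =
      ((ex S m g : ℕ) : ℂ) • bas S m := by
    refine euler_apply _ (bas_mem ?_)
    simp [ws, Pi.single_apply]
  have h2 : vf (fun g' => (Pi.single g 1 : E ⊕ O → ℂ) g' • (gn g' : Module.End ℂ (Sp E O))) =
      gn g * dr g := by
    unfold vf
    rw [Finset.sum_eq_single g]
    · simp
    · intro b _ hb
      simp [hb]
    · simp
  rw [h2] at h1
  refine ⟨((ex S m g : ℕ) : ℂ)⁻¹ • dr g (bas S m), Submodule.smul_mem _ _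
    (dr_mem g (bas_mem (P := P) hP.1) fun _ h => h), ?_⟩
  rw [map_smul, ← Module.End.mul_apply, h1, smul_smul, inv_mul_cancel₀ ha, one_smul]

theorem has_or {K : E ⊕ O → Prop} {g : E ⊕ O} {μ : E ⊕ O → ℕ} :
    has (fun g' => K g' ∨ g' = g) μ ↔ has K μ ∨ μ g ≠ 0 := by
  constructor
  · rintro ⟨g', h | rfl, h'⟩
    · exact Or.inl ⟨g', h, h'⟩
    · exact Or.inr h'
  · rintro (⟨g', h, h'⟩ | h)
    · exact ⟨g', Or.inl h, h'⟩
    · exact ⟨g, Or.inr rfl, h⟩

theorem gn_mem_self (g : E ⊕ O) (y : Sp E O) : gn g y ∈ mono fun μ => μ g ≠ 0 :=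
  gn_mem (P := fun _ => True) g (by rw [mono_true]; trivial) fun μ _ => by simp

end Gen

variable {E O J Γ : Type} [Fintype E] [Fintype O] [Fintype J] [DecidableEq E] [DecidableEq O]
  [DecidableEq J] [AddCommGroup Γ] {Al : Gn E O J → Prop} {c : Gn E O J → Γ}
  {δ : Gn E O J → Op E O J} {ω : Op E O J} {f : J → MvPolynomial (E ⊕ J) ℂ}

theorem cech_single (h : Good Al c δ ω f) {g : Gn E O J} (hg : Al g) (J₀ J₁ : Finset J)
    (μ : Gn E O J → ℕ) : cech Al J₀ J₁ (μ + Pi.single g 1) ↔ cech Al J₀ J₁ μ := by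
  have hev : ∀ j, (μ + Pi.single g 1 : Gn E O J → ℕ) (ev j) = μ (ev j) := by
    intro j
    have : ev j ≠ g := fun e => h.alE j (e ▸ hg)
    simp [this]
  unfold cech
  simp only [hev]
  refine and_congr_left fun _ => ⟨fun h1 g' hg' => h1 g' ?_, fun h1 g' hg' => ?_⟩
  · simp only [Pi.add_apply]
    omega
  · by_cases e : g' = g
    · exact Or.inl (e ▸ hg)
    · refine h1 g' ?_
      simpa [e] using hg'

theorem one_step (h : Good Al c δ ω f) (j₀ : J) {K : Gn E O J → Prop} (hK : ∀ g, K g → Al g)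
    (hδ : ∀ g, K g → δ g ∈ words (has K)) {g : Gn E O J} (hg : Al g) (hgK : ¬ K g)
    (hδg : δ g ∈ words (has K)) (l : Γ →+ ℤ) (hl : g.isLeft → 0 < l (c g))
    (hl' : ∀ γ, l γ < 0 → ∀ p, ZZ Al c {j₀} ∅ γ p ≤ rel f ⊔ mono (has K)) (e : Γ → ℤ)
    (he : ∀ γ, HasChi (Dloc δ ω f ∅) (ZZ Al c {j₀} ∅ γ)
      (rel f ⊔ mono (has fun g' => K g' ∨ g' = g)) (e γ)) :
    ∃ e' : Γ → ℤ, (∀ γ, HasChi (Dloc δ ω f ∅) (ZZ Al c {j₀} ∅ γ) (rel f ⊔ mono (has K)) (e' γ)) ∧
      (if g.isRight then e' = shl [c g] e else shl [c g] e' = e) ∧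
      ∀ U : Set Γ, (∀ γ ∈ U, γ - c g ∈ U) →
        (∀ γ ∈ U, Acy (Dloc δ ω f ∅) (ZZ Al c {j₀} ∅ γ)
          (rel f ⊔ mono (has fun g' => K g' ∨ g' = g))) →
        ∀ γ ∈ U, Acy (Dloc δ ω f ∅) (ZZ Al c {j₀} ∅ γ) (rel f ⊔ mono (has K)) := by
  have hT : ∀ j, ¬ K (tv j) := fun j hk => h.alT j (hK _ hk)
  have hE : ∀ j, ¬ K (ev j) := fun j hk => h.alE j (hK _ hk)
  have hall : ∀ x : Sp (E ⊕ J) (O ⊕ J), x ∈ mono fun _ => True := fun x => by
    rw [mono_true]; trivial
  have hKs : ∀ μ : Gn E O J → ℕ, has K (μ + Pi.single g 1) ↔ has K μ := fun μ => by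
    rw [has_add, has_single]
    exact or_iff_left hgK
  have hB'eq : (mono (has fun g' => K g' ∨ g' = g) : Submodule ℂ (Sp (E ⊕ J) (O ⊕ J))) =
      mono (has K) ⊔ mono fun μ => μ g ≠ 0 := by
    rw [← mono_or]
    exact le_antisymm (mono_le fun _ => has_or.1) (mono_le fun _ => has_or.2)
  have hgB : ∀ x ∈ rel f ⊔ mono (has K), gn g x ∈ rel f ⊔ mono (has K) := by
    intro x hx
    obtain ⟨r, hr, z, hz, rfl⟩ := Submodule.mem_sup.1 hx
    rw [map_add]
    exact Submodule.add_mem_sup (words_rel (gn_mem_words (P := fun _ => True) trivial) hr)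
      (gn_mem g hz fun μ hμ => (hKs μ).2 hμ)
  have hle : (rel f ⊔ mono (has K) : Submodule ℂ (Sp (E ⊕ J) (O ⊕ J))) ≤
      rel f ⊔ mono (has fun g' => K g' ∨ g' = g) := by
    rw [hB'eq]
    exact sup_le_sup_left le_sup_left _
  have hgB' : ∀ y, gn g y ∈ rel f ⊔ mono (has fun g' => K g' ∨ g' = g) := by
    intro y
    rw [hB'eq]
    exact Submodule.mem_sup_right (Submodule.mem_sup_right (gn_mem_self g y))
  refine step (ZZ Al c {j₀} ∅) (gn g) (c g) g.isRight l
    (fun γ => h.isCx_kill (Finset.empty_subset _) γ hK hδ) ?_ ?_ ?_ ?_ ?_ e he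
  · intro γ p x hx
    refine gn_mem g hx fun μ hμ => ⟨(cech_single h hg _ _ μ).2 hμ.1, ?_, ?_⟩
    · rw [ws_add, ws_single, hμ.2.1]
    · rw [od_add, od_single, hμ.2.2]
  · intro γ p x _
    have h1 := LinearMap.congr_fun (h.Dloc_gn ∅ g) x
    have h2 : dl δ f g = δ g := by
      rcases g with (e | j) | o
      · rfl
      · exact (h.alT j hg).elim
      · rfl
    simp only [LinearMap.sub_apply, LinearMap.smul_apply, Module.End.mul_apply] at h1
    rw [h1, h2]
    exact Submodule.mem_sup_right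
      (words_apply_mem hδg (hall x) fun a b ha _ => has_add.2 (Or.inl ha))
  · intro γ p x _
    rcases g with (e | j) | (o | j)
    · simp only [Sum.isRight_inl, Bool.false_eq_true, if_false]
      refine ⟨fun hx => ?_, hgB x⟩
      rw [kill_rel hT hE] at hx ⊢
      rw [proj_comm (A := fun _ => True) (P := fun μ => ¬ has K μ)
        (fun y hy => gn_mem _ hy fun μ hμ h' => hμ.2 ((hKs μ).1 h'))
        (fun y hy => gn_mem _ hy fun μ hμ h' => hμ.2 fun h'' => h' ((hKs μ).2 h'')) (hall x)] at hx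
      refine rel_nzd (fun j => ?_) (p := X (Sum.inl e)) (X_ne_zero _) ?_ hx
      · rw [(kill_sub (O := O ⊕ J) K (f j)).2]
        exact proj_mem_of (h.tfree j)
      · rw [← mul_one_eq]
        exact gn_mem (P := tfree) (Sum.inl (Sum.inl e)) (one_mem fun _ => rfl) fun μ hμ j => by
          simpa using hμ j
    · exact (h.alT j hg).elim
    · simp only [Sum.isRight_inr, if_true]
      constructor
      · intro hx
        have h1 := LinearMap.congr_fun
          (dr_mul_gn (Sum.inr (Sum.inl o) : Gn E O J) (Sum.inr (Sum.inl o))) x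
        simp only [Sum.isRight_inr, Bool.and_self, sg, if_true, LinearMap.add_apply,
          LinearMap.smul_apply, Module.End.mul_apply, Module.End.one_apply, neg_smul,
          one_smul] at h1
        have h2 : x = dr (Sum.inr (Sum.inl o)) (gn (Sum.inr (Sum.inl o)) x) +
            gn (Sum.inr (Sum.inl o)) (dr (Sum.inr (Sum.inl o)) x) := by
          rw [h1]
          abel
        rw [h2]
        refine Submodule.add_mem _ (hle ?_) (hgB' _)
        obtain ⟨r, hr, z, hz, e'⟩ := Submodule.mem_sup.1 hx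
        rw [← e', map_add]
        exact Submodule.add_mem_sup (dr_rel o hr) (dr_mem _ hz fun μ hμ => (hKs μ).1 hμ)
      · intro hx
        rw [hB'eq, ← sup_assoc] at hx
        obtain ⟨r, hr, z, hz, rfl⟩ := Submodule.mem_sup.1 hx
        have h0 : gn (Sum.inr (Sum.inl o) : Gn E O J) z = 0 := by
          have h1 : gn (Sum.inr (Sum.inl o) : Gn E O J) z ∈
              mono fun μ => 2 ≤ μ (Sum.inr (Sum.inl o)) :=
            gn_mem _ hz fun μ hμ => by
              simp only [Pi.add_apply, Pi.single_eq_same]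
              omega
          have h2 := mono_le_odd (P' := fun _ => False) (fun μ h3 h4 => by
            have := h3 (Sum.inl o)
            omega) h1
          rwa [mono_false] at h2
        rw [map_add, h0, add_zero]
        exact hgB r hr
    · exact (h.alE j hg).elim
  · intro γ p x hx
    constructor
    · intro hb
      obtain ⟨r, hr, z, hz, e'⟩ := Submodule.mem_sup.1 hb
      let P : (Gn E O J → ℕ) → Prop := fun μ =>
        cech Al {j₀} ∅ μ ∧ ws c μ = γ + c g ∧ od μ = xor p g.isRight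
      have h1 : proj P r ∈ rel f := by
        refine proj_rel (A := univ) (fun j _ m hm μ hμ => ?_)
          (mono_le (fun _ _ j _ => mem_univ j) (hall r)) hr
        obtain ⟨a1, a2, a3⟩ := h.cech_add {j₀} ∅ j m hm μ hμ
        simp only [P, a1, a2, a3]
      have h2 : x = proj P r + proj P z := by
        rw [← map_add, e', proj_eq_self hx]
      have h3 : proj P z ∈ mono fun μ => has K μ ∨ (P μ ∧ μ g ≠ 0) := by
        have h4 : proj P z ∈ mono fun μ => P μ ∧ has (fun g' => K g' ∨ g' = g) μ := by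
          rw [mono_and]
          exact ⟨proj_mem z, proj_mem_of hz⟩
        refine mono_le (fun μ hμ => ?_) h4
        rcases has_or.1 hμ.2 with h5 | h5
        · exact Or.inl h5
        · exact Or.inr ⟨hμ.1, h5⟩
      rw [mono_or] at h3
      obtain ⟨z₁, hz₁, z₂, hz₂, e₂⟩ := Submodule.mem_sup.1 h3
      obtain ⟨y, hy, rfl⟩ := div_gn g hz₂
      refine ⟨y, mono_le (fun μ hμ => ?_) hy, ?_⟩
      · obtain ⟨a1, a2, a3⟩ := hμ
        rw [ws_add, ws_single, add_left_inj] at a2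
        rw [od_add, od_single] at a3
        exact ⟨(cech_single h hg _ _ μ).1 a1, a2, xor_cancel a3⟩
      · rw [h2, ← e₂, ← add_assoc, add_sub_cancel_right]
        exact Submodule.add_mem_sup h1 hz₁
    · rintro ⟨y, -, hy⟩
      rw [← sub_add_cancel x (gn g y)]
      exact Submodule.add_mem _ (hle hy) (hgB' y)
  · intro hs
    refine ⟨hl ?_, hl'⟩
    rcases g with g | g
    · rfl
    · simp at hs

theorem min_closed (h : Good Al c δ ω f) {K : Gn E O J → Prop} {L : List (Gn E O J)}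
    {ρ : Gn E O J → ℤ} (hT : Tri Al δ K L ρ) {g : Gn E O J} (hg : g ∈ L)
    (hmin : ∀ g' ∈ L, ρ g ≤ ρ g') : δ g ∈ words (has K) := by
  refine words_le (fun μ hμ => ?_) (words_and (h.dw g) (hT.lst g hg))
  obtain ⟨⟨hs, -⟩, h1 | ⟨⟨g', hg', h2⟩, h3⟩⟩ := hμ
  · exact h1
  · by_contra hK
    have h4 : ∀ a, 0 ≤ μ a • ρ a := by
      intro a
      by_cases ha : μ a = 0
      · simp [ha]
      · exact nsmul_nonneg (hT.pos a (hs a ha) fun hk => hK ⟨a, hk, ha⟩).le _
    have h5 : μ g' • ρ g' ≤ ws ρ μ :=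
      Finset.single_le_sum (f := fun a => μ a • ρ a) (fun a _ => h4 a) (mem_univ g')
    have h6 : 0 < ρ g' := hT.pos g' (hT.lAl g' hg').1 (hT.lAl g' hg').2
    have h7 : (1 : ℤ) ≤ μ g' := by exact_mod_cast Nat.one_le_iff_ne_zero.2 h2
    have h8 := hmin g' hg'
    rw [nsmul_eq_mul] at h5
    nlinarith

theorem one_ind (h : Good Al c δ ω f) (j₀ : J) (ρ : Gn E O J → ℤ) (l : Γ →+ ℤ) (e : Γ → ℤ)
    (n : ℕ) : ∀ (K : Gn E O J → Prop) (L : List (Gn E O J)), L.length = n → Tri Al δ K L ρ →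
    (∀ g ∈ L, g.isLeft → 0 < l (c g)) →
    (∀ γ, l γ < 0 → ∀ p, ZZ Al c {j₀} ∅ γ p ≤ rel f ⊔ mono (has K)) →
    (∀ γ, HasChi (Dloc δ ω f ∅) (ZZ Al c {j₀} ∅ γ)
      (rel f ⊔ mono (has fun g => K g ∨ g ∈ L)) (e γ)) →
    ∃ e' : Γ → ℤ, (∀ γ, HasChi (Dloc δ ω f ∅) (ZZ Al c {j₀} ∅ γ) (rel f ⊔ mono (has K)) (e' γ)) ∧
      shl ((L.filter Sum.isLeft).map c) e' = shl ((L.filter Sum.isRight).map c) e ∧
      ∀ U : Set Γ, (∀ g ∈ L, ∀ γ ∈ U, γ - c g ∈ U) →
        (∀ γ ∈ U, Acy (Dloc δ ω f ∅) (ZZ Al c {j₀} ∅ γ) (rel f ⊔ mono (has fun g => K g ∨ g ∈ L))) →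
        ∀ γ ∈ U, Acy (Dloc δ ω f ∅) (ZZ Al c {j₀} ∅ γ) (rel f ⊔ mono (has K)) := by
  induction n with
  | zero =>
    intro K L hL _ _ _ he
    obtain rfl := List.length_eq_zero_iff.1 hL
    have e1 : (fun g : Gn E O J => K g ∨ g ∈ ([] : List (Gn E O J))) = K := by
      funext g
      simp
    rw [e1] at he ⊢
    exact ⟨e, he, rfl, fun U _ hU => hU⟩
  | succ n ih =>
    intro K L hL hT hl hl' he
    have hne : L.toFinset.Nonempty := by
      rcases L with _ | ⟨a, L⟩
      · simp at hL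
      · exact ⟨a, by simp⟩
    obtain ⟨g, hg, hmin⟩ := L.toFinset.exists_min_image ρ hne
    rw [List.mem_toFinset] at hg
    have hδg := min_closed h hT hg fun g' hg' => hmin g' (List.mem_toFinset.2 hg')
    obtain ⟨L', hp⟩ := exists_perm hg
    have hnd := List.nodup_cons.1 (hp.nodup_iff.1 hT.nodup)
    have hmem : ∀ a, a ∈ L' ↔ a ≠ g ∧ a ∈ L := by
      intro a
      rw [hp.mem_iff, List.mem_cons]
      exact ⟨fun ha => ⟨fun e => hnd.1 (e ▸ ha), Or.inr ha⟩, fun ha => ha.2.resolve_left ha.1⟩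
    have hKK : ∀ μ : Gn E O J → ℕ, has K μ → has (fun g' => K g' ∨ g' = g) μ :=
      fun μ hμ => has_or.2 (Or.inl hμ)
    have hT' : Tri Al δ (fun g' => K g' ∨ g' = g) L' ρ := by
      refine ⟨hnd.2, ?_, ?_, ?_, fun a ha hk => hT.pos a ha fun h' => hk (Or.inl h'), ?_⟩
      · rintro a (ha | rfl)
        · exact hT.kAl a ha
        · exact (hT.lAl a hg).1
      · rintro a (ha | rfl)
        · exact words_le hKK (hT.kst a ha)
        · exact words_le hKK hδg
      · intro a ha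
        rw [hmem] at ha
        exact ⟨(hT.lAl a ha.2).1, fun h' => h'.elim (hT.lAl a ha.2).2 ha.1⟩
      · intro a ha
        refine words_le (fun μ hμ => ?_) (hT.lst a ((hmem a).1 ha).2)
        obtain h1 | ⟨⟨b, hb, h2⟩, h3⟩ := hμ
        · exact Or.inl (hKK μ h1)
        · by_cases hbg : b = g
          · exact Or.inl ⟨b, Or.inr hbg, h2⟩
          · exact Or.inr ⟨⟨b, (hmem b).2 ⟨hbg, hb⟩, h2⟩, h3⟩
    have e1 : (fun a : Gn E O J => (K a ∨ a = g) ∨ a ∈ L') = fun a => K a ∨ a ∈ L := by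
      funext a
      rw [hmem]
      by_cases ha : a = g
      · simp [ha, hg]
      · simp [ha]
    obtain ⟨e₁, he₁, hs₁, hU₁⟩ := ih (fun g' => K g' ∨ g' = g) L'
      (by simpa [hL] using hp.length_eq.symm) hT'
      (fun a ha => hl a ((hmem a).1 ha).2)
      (fun γ hγ p => (hl' γ hγ p).trans (sup_le_sup_left (mono_le hKK) _)) (by rw [e1]; exact he)
    obtain ⟨e₂, he₂, hs₂, hU₂⟩ := one_step h j₀ hT.kAl hT.kst (hT.lAl g hg).1 (hT.lAl g hg).2 hδg
      l (hl g hg) hl' e₁ he₁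
    refine ⟨e₂, he₂, ?_, fun U h1 h2 => hU₂ U (h1 g hg)
      (hU₁ U (fun a ha => h1 a ((hmem a).1 ha).2) (by rw [e1]; exact h2))⟩
    rw [shl_perm ((hp.filter Sum.isLeft).map c), shl_perm ((hp.filter Sum.isRight).map c)]
    have hc : ∀ (β : Γ) (M : List Γ) (χ : Γ → ℤ), shl (β :: M) χ = shl [β] (shl M χ) :=
      fun β M χ => shl_append [β] M χ
    rcases g with g | g
    · simp only [Sum.isRight_inl, Bool.false_eq_true, if_false] at hs₂
      rw [List.filter_cons_of_pos (by rfl), List.filter_cons_of_neg (by simp), List.map_cons, hc,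
        shl_comm, hs₂, hs₁]
    · simp only [Sum.isRight_inr, if_true] at hs₂
      rw [List.filter_cons_of_neg (by simp), List.filter_cons_of_pos (by rfl), List.map_cons, hc,
        hs₂, shl_comm, hs₁]

theorem one_stmt : OneStmt := by
  intro E O J Γ _ _ _ _ _ _ _ Al c δ ω f h j₀ K L ρ hT l hl hl' e he
  exact one_ind h j₀ ρ l e L.length K L rfl hT hl hl' he

end Pool.Agent.MP_8be872_ag.H28
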